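import Mathlib
import Pool.Agent.Q61.OSD
import Pool.Agent.Q61.OS7

set_option autoImplicit false

namespace Pool.Agent.Results.MP_8e06fd_an.FSigmaSpectra

open Pool.Agent.Q61.OS

/-- Every nonempty `F_σ` subset of `[0,1]` is the oscillating spectrum of a closed subspace of
`C[0,1]` that is not complemented in `C[0,1]`. -/
theorem result :
    ∀ M : Set unitInterval, M.Nonempty →
      (∃ F : ℕ → Set unitInterval, (∀ k, IsClosed (F k)) ∧ M = ⋃ k, F k) →
      ∃ X : Submodule ℝ C(unitInterval, ℝ),
        IsClosed (X : Set C(unitInterval, ℝ)) ∧ ¬ Complemented X ∧ Spec X = M :=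
  fun _ hne hM => main hne hM

end Pool.Agent.Results.MP_8e06fd_an.FSigmaSpectra
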